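import Mathlib
import Pool.Agent.TH920.MC.UB
import Pool.Agent.TH920.MA.ND2
import Pool.Agent.TH314.PD.Core2

/-!
# Polynomials affine in some of the variables: the equations, and the upper bound
-/

set_option autoImplicit false

namespace Pool.Agent.TH920.MC

open MvPolynomial Pool.Agent.TH314.PD Pool.Agent.TH920.MA

noncomputable section

variable {n : ℕ}

/-- degree at most one in each variable outside `S`, and at most `q` in the variables of `S` -/
def Sg (S : Finset (Fin n)) (q : ℕ) (g : MvPolynomial (Fin n) ℂ) : Prop :=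
  ∀ α ∈ g.support, (∀ l, l ∉ S → α l ≤ 1) ∧ ∑ l ∈ S, α l ≤ q

/-- Euler's operator for the variables of `S`, and the partial derivatives -/
def DS (S : Finset (Fin n)) (k : ℕ) :
    Option (Fin n) → (MvPolynomial (Fin n) ℂ →ₗ[ℂ] MvPolynomial (Fin n) ℂ)
  | none => (k : ℂ) • LinearMap.id -
      ∑ l ∈ S, (LinearMap.mulLeft ℂ (X l)).comp (pderiv (R := ℂ) l).toLinearMap
  | some l => (pderiv (R := ℂ) l).toLinearMap

theorem DS_some (S : Finset (Fin n)) (k : ℕ) (l : Fin n) (g : MvPolynomial (Fin n) ℂ) :
    DS S k (some l) g = pderiv l g := rfl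

theorem DS_none (S : Finset (Fin n)) (k : ℕ) (g : MvPolynomial (Fin n) ℂ) :
    DS S k none g = (k : ℂ) • g - ∑ l ∈ S, X l * pderiv l g := by
  unfold DS
  rw [LinearMap.sub_apply, LinearMap.smul_apply, LinearMap.sum_apply]
  rfl

theorem coeff_X_pderiv (g : MvPolynomial (Fin n) ℂ) (i : Fin n) (α : Fin n →₀ ℕ) :
    coeff α (X i * pderiv i g) = (α i : ℂ) * coeff α g := by
  rw [coeff_X_mul', coeff_pderiv]
  by_cases h : i ∈ α.support
  · rw [if_pos h]
    have h2 : α i ≠ 0 := Finsupp.mem_support_iff.1 h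
    have h3 : α - Finsupp.single i 1 + Finsupp.single i 1 = α := by
      apply tsub_add_cancel_of_le
      rw [Finsupp.single_le_iff]
      omega
    rw [h3]
    have h4 : (((α - Finsupp.single i 1 : Fin n →₀ ℕ) i : ℕ) : ℂ) + 1 = (α i : ℂ) := by
      rw [Finsupp.tsub_apply, Finsupp.single_eq_same]
      have h5 : α i - 1 + 1 = α i := by omega
      exact_mod_cast congrArg (fun m : ℕ => (m : ℂ)) h5
    rw [h4]
    ring
  · rw [if_neg h]
    have h2 : α i = 0 := by
      by_contra h3
      exact h (Finsupp.mem_support_iff.2 h3)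
    rw [h2, Nat.cast_zero, zero_mul]

theorem DS_none_deg {S : Finset (Fin n)} {k : ℕ} {g : MvPolynomial (Fin n) ℂ} (hg : Sg S k g) :
    Sg S (k - 1) (DS S k none g) := by
  intro α hα
  have h1 : coeff α (DS S k none g) = ((k : ℂ) - ((∑ l ∈ S, α l : ℕ) : ℂ)) * coeff α g := by
    rw [DS_none, coeff_sub, coeff_smul, coeff_sum,
      Finset.sum_congr rfl fun l _ => coeff_X_pderiv g l α, ← Finset.sum_mul, smul_eq_mul,
      Nat.cast_sum]
    ring
  rw [mem_support_iff, h1] at hα
  have h2 : coeff α g ≠ 0 := right_ne_zero_of_mul hα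
  have h3 := left_ne_zero_of_mul hα
  have h4 := hg α (mem_support_iff.2 h2)
  have h5 : ∑ l ∈ S, α l ≠ k := by
    intro h
    rw [h, sub_self] at h3
    exact h3 rfl
  exact ⟨h4.1, by omega⟩

theorem pd_deg {S : Finset (Fin n)} {k : ℕ} {g : MvPolynomial (Fin n) ℂ} (hg : Sg S k g)
    (l : Fin n) : Sg S (if l ∈ S then k - 1 else k) (pderiv l g) := by
  classical
  intro α hα
  rw [mem_support_iff, coeff_pderiv] at hα
  have h1 : α + Finsupp.single l 1 ∈ g.support := by
    rw [mem_support_iff]
    intro h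
    rw [h, zero_mul] at hα
    exact hα rfl
  have h2 := hg _ h1
  simp only [Finsupp.add_apply, Finset.sum_add_distrib] at h2
  refine ⟨fun l' hl' => ?_, ?_⟩
  · have := h2.1 l' hl'
    omega
  · by_cases hl : l ∈ S
    · rw [if_pos hl]
      have h3 : ∑ x ∈ S, (Finsupp.single l 1 : Fin n →₀ ℕ) x = 1 := by
        rw [Finset.sum_eq_single l]
        · exact Finsupp.single_eq_same
        · intro b _ hb
          exact Finsupp.single_eq_of_ne hb
        · intro h
          exact absurd hl h
      have := h2.2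
      omega
    · rw [if_neg hl]
      have := h2.2
      omega

section iota

variable {K : Type} [Field K] [Algebra ℂ K] (L : IntermediateField ℂ K)

theorem io_supp {g : MvPolynomial (Fin n) ℂ} {β : Option (Fin n) →₀ ℕ}
    (hβ : β ∈ (io L g).support) :
    β none = 0 ∧ ∃ α ∈ g.support, ∀ l, β (some l) = α l := by
  classical
  have h1 : io L g = ∑ α ∈ g.support, monomial (α.mapDomain some) (algebraMap ℂ L (coeff α g)) := by
    conv_lhs => rw [g.as_sum, map_sum]
    refine Finset.sum_congr rfl fun α _ => ?_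
    unfold io
    rw [aeval_monomial]
    rw [monomial_eq, Finsupp.prod_mapDomain_index (fun _ => pow_zero _) (fun _ _ _ => pow_add _ _ _)]
    rfl
  rw [h1] at hβ
  have h2 := Finset.mem_biUnion.1 (MvPolynomial.support_sum hβ)
  obtain ⟨α, hα, hβ2⟩ := h2
  have h3 : β = α.mapDomain some := by
    have := support_monomial_subset hβ2
    rwa [Finset.mem_singleton] at this
  subst h3
  refine ⟨?_, α, hα, fun l => Finsupp.mapDomain_apply (Option.some_injective _) _ _⟩
  rw [Finsupp.mapDomain_of_notMem_range]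
  simp

theorem io_BS {S : Finset (Fin n)} {q : ℕ} {g : MvPolynomial (Fin n) ℂ} (hg : Sg S q g) :
    BS S 1 q (io L g) := by
  intro β hβ
  obtain ⟨h1, α, hα, h2⟩ := io_supp L hβ
  refine ⟨by omega, fun l hl => ?_, ?_⟩
  · rw [h2]
    exact (hg α hα).1 l hl
  · rw [Finset.sum_congr rfl fun l _ => h2 l]
    exact (hg α hα).2

theorem X_io_BS {S : Finset (Fin n)} {q : ℕ} {g : MvPolynomial (Fin n) ℂ} (hg : Sg S q g) :
    BS S 1 q (X none * io L g) := by
  classical
  intro β hβ
  obtain ⟨a, ha, b, hb, rfl⟩ := Finset.mem_add.1 (MvPolynomial.support_mul _ _ hβ)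
  obtain ⟨h1, α, hα, h2⟩ := io_supp L hb
  have h3 : a = Finsupp.single none 1 := by
    have := support_monomial_subset ha
    rwa [Finset.mem_singleton] at this
  subst h3
  have h4 : ∀ l : Fin n, (Finsupp.single none 1 : Option (Fin n) →₀ ℕ) (some l) = 0 := fun l =>
    Finsupp.single_eq_of_ne (by simp)
  refine ⟨?_, fun l hl => ?_, ?_⟩
  · rw [Finsupp.add_apply, Finsupp.single_eq_same, h1]
  · rw [Finsupp.add_apply, h4, zero_add, h2]
    exact (hg α hα).1 l hl
  · rw [Finset.sum_congr rfl fun l _ => by rw [Finsupp.add_apply, h4, zero_add, h2 l]]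
    exact (hg α hα).2

theorem C_io_BS {S : Finset (Fin n)} {q : ℕ} {g : MvPolynomial (Fin n) ℂ} (hg : Sg S q g) (y : L) :
    BS S 1 q (C y * io L g) :=
  ((BS.C y).mul (io_BS L hg)).mono (by omega) (by omega)

end iota

variable {k : ℕ} {K : Type} [Field K] [Algebra ℂ K]

/-- nondegeneracy -/
theorem nd_S [CharZero K] (S : Finset (Fin n)) (al : MvPolynomial (Fin n) ℂ →ₐ[ℂ] K)
    (hal : Function.Injective al) (hb : IsTranscendenceBasis ℂ (fun l : Fin n => al (X l)))
    (Γ : Fin (n + 2) → MvPolynomial (Fin n) ℂ) (Y : Fin (n + 2) → K) (hY0 : Y 0 = 1)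
    (hr0 : ∑ j, Y j * al (Γ j) = 0) (hr1 : ∀ l, ∑ j, Y j * al (pderiv l (Γ j)) = 0)
    (hlast : Γ (Fin.last (n + 1)) ≠ 0) (hk : 0 < k)
    (hind : ∀ (a : K) (w : Fin n → K),
      (∀ j, a * al (Γ j) + ∑ l, w l * al (pderiv l (Γ j)) = 0) → a = 0 ∧ w = 0)
    (hder : ∀ δ : Derivation ℂ (K) (K), (∀ j, δ (Y j) = 0) → δ = 0)
    (μ : K) (w : Fin n → K)
    (h : ∀ i : Option (Fin n), μ * al (DS S k i (Γ (Fin.last (n + 1)))) +
      ∑ m, w m * ∑ j, Y j * al (pderiv m (DS S k i (Γ j))) = 0) : μ = 0 ∧ w = 0 := by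
  classical
  have hsome : ∀ l : Fin n, μ * al (pderiv l (Γ (Fin.last (n + 1)))) +
      ∑ m, w m * ∑ j, Y j * al (pderiv m (pderiv l (Γ j))) = 0 := fun l => h (some l)
  have hnone := h none
  have h1 : ∀ m, ∑ j, Y j * al (pderiv m (DS S k none (Γ j))) =
      - ∑ l ∈ S, al (X l) * ∑ j, Y j * al (pderiv m (pderiv l (Γ j))) := by
    intro m
    have h2 : ∀ j, al (pderiv m (DS S k none (Γ j))) =
        (k : K) * al (pderiv m (Γ j)) - (if m ∈ S then al (pderiv m (Γ j)) else 0) -
          ∑ l ∈ S, al (X l) * al (pderiv m (pderiv l (Γ j))) := by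
      intro j
      rw [DS_none, map_sub, map_sum]
      have h3 : ∀ l, pderiv m (X l * pderiv l (Γ j)) =
          (if l = m then pderiv m (Γ j) else 0) + X l * pderiv m (pderiv l (Γ j)) := by
        intro l
        rw [pderiv_mul]
        by_cases hl : l = m
        · subst hl
          rw [pderiv_X_self, if_pos rfl, one_mul]
        · rw [pderiv_X_of_ne hl, if_neg hl, zero_mul]
      rw [Finset.sum_congr rfl fun l _ => h3 l, Finset.sum_add_distrib, Finset.sum_ite_eq',
        map_sub, map_add, map_sum, Derivation.map_smul, map_smul]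
      simp only [map_mul]
      rw [Algebra.smul_def, map_natCast]
      have h4 : al (if m ∈ S then pderiv m (Γ j) else 0) =
          if m ∈ S then al (pderiv m (Γ j)) else 0 := by
        split_ifs
        · rfl
        · exact map_zero al
      rw [h4]
      ring
    simp only [h2, mul_sub, Finset.sum_sub_distrib]
    have h4 : ∑ j, Y j * ((k : K) * al (pderiv m (Γ j))) = 0 := by
      have h5 : ∀ j, Y j * ((k : K) * al (pderiv m (Γ j))) =
          (k : K) * (Y j * al (pderiv m (Γ j))) := fun j => by ring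
      rw [Finset.sum_congr rfl fun j _ => h5 j, ← Finset.mul_sum, hr1 m, mul_zero]
    have h4' : ∑ j, Y j * (if m ∈ S then al (pderiv m (Γ j)) else 0) = 0 := by
      split_ifs
      · exact hr1 m
      · simp
    rw [h4, h4', sub_zero, zero_sub]
    congr 1
    simp only [Finset.mul_sum]
    rw [Finset.sum_comm]
    refine Finset.sum_congr rfl fun l _ => Finset.sum_congr rfl fun j _ => ?_
    ring
  have h6 : al (DS S k none (Γ (Fin.last (n + 1)))) = (k : K) * al (Γ (Fin.last (n + 1))) -
      ∑ l ∈ S, al (X l) * al (pderiv l (Γ (Fin.last (n + 1)))) := by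
    rw [DS_none, map_sub, map_sum, map_smul, Algebra.smul_def, map_natCast]
    simp only [map_mul]
  have hs : ∑ m, w m * ∑ j, Y j * al (pderiv m (DS S k none (Γ j))) =
      ∑ m, w m * -∑ l ∈ S, al (X l) * ∑ j, Y j * al (pderiv m (pderiv l (Γ j))) :=
    Finset.sum_congr rfl fun m _ => by rw [h1 m]
  rw [h6, hs] at hnone
  have h7 : ∑ m, w m * -∑ l ∈ S, al (X l) * ∑ j, Y j * al (pderiv m (pderiv l (Γ j))) =
      - ∑ l ∈ S, al (X l) * ∑ m, w m * ∑ j, Y j * al (pderiv m (pderiv l (Γ j))) := by
    simp only [mul_neg, Finset.sum_neg_distrib]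
    congr 1
    simp only [Finset.mul_sum]
    rw [Finset.sum_comm]
    refine Finset.sum_congr rfl fun l _ => Finset.sum_congr rfl fun m _ =>
      Finset.sum_congr rfl fun j _ => ?_
    ring
  rw [h7] at hnone
  have h8 : ∑ l ∈ S, al (X l) * ∑ m, w m * ∑ j, Y j * al (pderiv m (pderiv l (Γ j))) =
      - ∑ l ∈ S, al (X l) * (μ * al (pderiv l (Γ (Fin.last (n + 1))))) := by
    rw [← Finset.sum_neg_distrib]
    refine Finset.sum_congr rfl fun l _ => ?_
    rw [← mul_neg]
    congr 1
    exact eq_neg_of_add_eq_zero_right (hsome l)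
  rw [h8] at hnone
  have h9 : μ * ((k : K) * al (Γ (Fin.last (n + 1)))) = 0 := by
    rw [← hnone]
    rw [mul_sub, Finset.mul_sum, neg_neg]
    have h10 : ∑ i ∈ S, μ * (al (X i) * al (pderiv i (Γ (Fin.last (n + 1))))) =
        ∑ l ∈ S, al (X l) * (μ * al (pderiv l (Γ (Fin.last (n + 1))))) :=
      Finset.sum_congr rfl fun l _ => by ring
    rw [h10]
    ring
  have hμ : μ = 0 := by
    rcases mul_eq_zero.1 h9 with h10 | h10
    · exact h10
    · rcases mul_eq_zero.1 h10 with h11 | h11
      · exact absurd h11 (Nat.cast_ne_zero.2 (by omega))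
      · exact absurd h11 ((map_ne_zero_iff al hal).2 hlast)
  refine ⟨hμ, ?_⟩
  subst hμ
  refine nd_hess al hb Γ Y hY0 hr0 hr1 hind hder w fun l => ?_
  have := hsome l
  rwa [zero_mul, zero_add] at this

/-- **Upper bound.** -/
theorem upper_mc [CharZero K] (S : Finset (Fin n)) (al : MvPolynomial (Fin n) ℂ →ₐ[ℂ] K)
    (hal : Function.Injective al) (hb : IsTranscendenceBasis ℂ (fun l : Fin n => al (X l)))
    (hfrac : ∀ z : K, ∃ a b, z = al a / al b)
    (Γ : Fin (n + 2) → MvPolynomial (Fin n) ℂ) (hΓ : ∀ j, Sg S k (Γ j))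
    (x : Fin (n + 2) → K) (p : Fin (n + 1) → MvPolynomial (Fin (n + 2)) ℂ)
    [Algebra.IsAlgebraic (LL x p) K]
    (Y : Fin (n + 2) → K) (hY0 : Y 0 = 1) (hYc : ∀ j : Fin (n + 1), Y j.castSucc = yy x p j)
    (hr0 : ∑ j, Y j * al (Γ j) = 0) (hr1 : ∀ l, ∑ j, Y j * al (pderiv l (Γ j)) = 0)
    (hlast : Γ (Fin.last (n + 1)) ≠ 0) (hk : 2 ≤ k)
    (hind : ∀ (a : K) (w : Fin n → K),
      (∀ j, a * al (Γ j) + ∑ l, w l * al (pderiv l (Γ j)) = 0) → a = 0 ∧ w = 0) :
    Module.finrank (LL x p) K * (k - 1) ^ (n - S.card) * S.card.factorial ≤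
      (n + 1).factorial * (k ^ (n - S.card) * (k - 1) ^ S.card) := by
  classical
  have hfd : FiniteDimensional (LL x p) K := finite_dim al hfrac (LL x p)
  set L := LL x p with hL
  let yL : Fin (n + 1) → L := fun j => ⟨yy x p j, IntermediateField.subset_adjoin _ _ ⟨j, rfl⟩⟩
  let E : Option (Fin n) → MvPolynomial (Option (Fin n)) L := fun i =>
    (∑ j : Fin (n + 1), C (yL j) * io L (DS S k i (Γ j.castSucc))) +
      X none * io L (DS S k i (Γ (Fin.last (n + 1))))
  let pt : Option (Fin n) → K := fun i => match i with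
    | none => Y (Fin.last (n + 1))
    | some l => al (X l)
  have hio : ∀ g : MvPolynomial (Fin n) ℂ, aeval pt (io L g) = al g := by
    intro g
    rw [aeval_io]
    have h1 : (aeval (fun l => pt (some l)) : MvPolynomial (Fin n) ℂ →ₐ[ℂ] K) = al := by
      apply MvPolynomial.algHom_ext
      intro l
      rw [aeval_X]
    rw [h1]
  have hsum : ∀ f : Fin (n + 2) → MvPolynomial (Fin n) ℂ,
      aeval pt ((∑ j : Fin (n + 1), C (yL j) * io L (f j.castSucc)) +
        X none * io L (f (Fin.last (n + 1)))) = ∑ j, Y j * al (f j) := by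
    intro f
    have h2 : ∀ j : Fin (n + 1), aeval pt (C (yL j) * io L (f j.castSucc)) =
        Y j.castSucc * al (f j.castSucc) := by
      intro j
      rw [map_mul, aeval_C, hio, hYc]
      rfl
    rw [map_add, map_sum, map_mul, aeval_X, hio, Finset.sum_congr rfl fun j _ => h2 j]
    exact (Fin.sum_univ_castSucc (fun j => Y j * al (f j))).symm
  have hE0 : ∀ i, aeval pt (E i) = 0 := by
    intro i
    have h0 : aeval pt (E i) = ∑ j, Y j * al (DS S k i (Γ j)) := hsum (fun j => DS S k i (Γ j))
    rw [h0]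
    cases i with
    | some l => exact hr1 l
    | none =>
      have h1 : ∀ j, Y j * al (DS S k none (Γ j)) = (k : K) * (Y j * al (Γ j)) -
          ∑ l ∈ S, al (X l) * (Y j * al (pderiv l (Γ j))) := by
        intro j
        rw [DS_none, map_sub, map_sum, map_smul, Algebra.smul_def, map_natCast, mul_sub,
          Finset.mul_sum]
        congr 1
        · ring
        · refine Finset.sum_congr rfl fun l _ => ?_
          rw [map_mul]
          ring
      rw [Finset.sum_congr rfl fun j _ => h1 j, Finset.sum_sub_distrib, ← Finset.mul_sum, hr0,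
        mul_zero, Finset.sum_comm, zero_sub, neg_eq_zero]
      refine Finset.sum_eq_zero fun l _ => ?_
      rw [← Finset.mul_sum, hr1 l, mul_zero]
  have hdn : ∀ i, pderiv none (E i) = io L (DS S k i (Γ (Fin.last (n + 1)))) := by
    intro i
    change pderiv none ((∑ j : Fin (n + 1), C (yL j) * io L (DS S k i (Γ j.castSucc))) +
      X none * io L (DS S k i (Γ (Fin.last (n + 1))))) = _
    rw [map_add, map_sum, pderiv_mul, pderiv_X_self, pderiv_none_io, mul_zero, add_zero, one_mul]
    rw [Finset.sum_eq_zero, zero_add]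
    intro j _
    rw [pderiv_C_mul, pderiv_none_io, mul_zero]
  have hds : ∀ i m, pderiv (some m) (E i) =
      (∑ j : Fin (n + 1), C (yL j) * io L (pderiv m (DS S k i (Γ j.castSucc)))) +
        X none * io L (pderiv m (DS S k i (Γ (Fin.last (n + 1))))) := by
    intro i m
    change pderiv (some m) ((∑ j : Fin (n + 1), C (yL j) * io L (DS S k i (Γ j.castSucc))) +
      X none * io L (DS S k i (Γ (Fin.last (n + 1))))) = _
    rw [map_add, map_sum, pderiv_mul, pderiv_X_of_ne (by simp), zero_mul, zero_add, pderiv_some_io]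
    congr 1
    refine Finset.sum_congr rfl fun j _ => ?_
    rw [pderiv_C_mul, pderiv_some_io]
  -- the weights
  let w : Option (Fin n) → ℕ := fun i => match i with
    | none => k
    | some l => if l ∈ S then k else k - 1
  have hEB : ∀ i q, (∀ j, Sg S q (DS S k i (Γ j))) → BS S 1 q (E i) := by
    intro i q h
    exact BS.add (BS.sum _ fun j _ => C_io_BS L (h _) _) (X_io_BS L (h _))
  have hEw : ∀ i, BS S k (k * (k - 1)) (E i ^ w i) := by
    intro i
    cases i with
    | none =>
      exact ((hEB none (k - 1) fun j => DS_none_deg (hΓ j)).pow k).mono (by omega) le_rfl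
    | some l =>
      have h1 := hEB (some l) _ fun j => pd_deg (hΓ j) l
      by_cases hl : l ∈ S
      · have hw : w (some l) = k := if_pos hl
        rw [if_pos hl] at h1
        rw [hw]
        exact (h1.pow k).mono (by omega) le_rfl
      · have hw : w (some l) = k - 1 := if_neg hl
        rw [if_neg hl] at h1
        rw [hw]
        exact (h1.pow (k - 1)).mono (by omega) (le_of_eq (mul_comm _ _))
  have hprod : ∏ i, w i = k * (k ^ S.card * (k - 1) ^ (n - S.card)) := by
    rw [Fintype.prod_option]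
    change k * ∏ l : Fin n, (if l ∈ S then k else k - 1) = _
    rw [Finset.prod_ite, Finset.prod_const, Finset.prod_const]
    congr 2
    · congr 1
      congr 1
      ext l
      simp
    · congr 1
      have h1 : Finset.filter (fun l => l ∉ S) Finset.univ = Sᶜ := by
        ext l
        simp
      rw [h1, Finset.card_compl, Fintype.card_fin]
  have hmain := ub_w S (u := k) (v := k * (k - 1)) w (fun i => by
    cases i with
    | none => exact (by omega : 0 < k)
    | some l =>
      change 0 < if l ∈ S then k else k - 1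
      split_ifs <;> omega) E pt hEw hE0 (by
    intro v hv
    have hder : ∀ δ : Derivation ℂ K K, (∀ j, δ (Y j) = 0) → δ = 0 := by
      intro δ hδ
      refine W602.GT.der_eq_zero δ (Set.range (yy x p)) (inferInstanceAs (Algebra.IsAlgebraic (LL x p) K)) ?_
      rintro _ ⟨j, rfl⟩
      rw [← hYc j]
      exact hδ _
    have h1 := nd_S (k := k) S al hal hb Γ Y hY0 hr0 hr1 hlast (by omega) hind hder (v none)
      (fun l => v (some l)) (fun i => by
        have h2 := hv i
        rw [Fintype.sum_option, hdn, hio] at h2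
        rw [← h2]
        congr 1
        refine Finset.sum_congr rfl fun m _ => ?_
        rw [hds, hsum (fun j => pderiv m (DS S k i (Γ j)))])
    funext i
    cases i with
    | none => exact h1.1
    | some l => exact congrFun h1.2 l) (surj al hfrac L pt fun l => rfl)
  rw [hprod] at hmain
  have hkp : 0 < k ^ (S.card + 1) := Nat.pow_pos (by omega)
  refine Nat.le_of_mul_le_mul_left ?_ hkp
  calc k ^ (S.card + 1) * (Module.finrank L K * (k - 1) ^ (n - S.card) * S.card.factorial)
      = Module.finrank L K * (k * (k ^ S.card * (k - 1) ^ (n - S.card))) * S.card.factorial := by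
        ring
    _ ≤ (n + 1).factorial * (k ^ (n - S.card + 1) * (k * (k - 1)) ^ S.card) := hmain
    _ = k ^ (S.card + 1) * ((n + 1).factorial * (k ^ (n - S.card) * (k - 1) ^ S.card)) := by
        rw [mul_pow]
        ring

end

end Pool.Agent.TH920.MC
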