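import Mathlib
import Pool.Agent.TH314.PD.Restr2
import Pool.Agent.TH920.MC.Up

/-!
# Restriction of a dominant map to a subspace compatible with a set of coordinates
(the proof follows `Pool.Agent.TH314.PD.restrict_exists`)
-/

set_option autoImplicit false

namespace Pool.Agent.TH920.MC

open MvPolynomial Pool.Agent.TH314.PD

noncomputable section

variable {n N d : ℕ}

/-- multilinear expansion of a determinant -/
theorem det_expand2 {m : ℕ} {R α : Type} [CommRing R] [Fintype α] [DecidableEq α]
    (w : Fin m → α → R) (v : Fin m → α → Fin m → R) (Z : Matrix (Fin m) (Fin m) R)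
    (hZ : ∀ i r, Z i r = ∑ a, w r a * v r a i) (hdet : Z.det ≠ 0) :
    ∃ g : Fin m → α, (∀ r, w r (g r) ≠ 0) ∧
      Matrix.det (fun i r => v r (g r) i : Matrix (Fin m) (Fin m) R) ≠ 0 := by
  by_contra hcon
  push Not at hcon
  apply hdet
  have h1 : Z.transpose = fun r => ∑ a, w r a • v r a := by
    funext r i
    rw [Matrix.transpose_apply, hZ, Finset.sum_apply]
    rfl
  have h2 : Z.det = (Matrix.detRowAlternating (n := Fin m) (R := R)).toMultilinearMap
      (fun r => ∑ a, w r a • v r a) := by
    rw [← Matrix.det_transpose, h1]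
    rfl
  rw [h2, MultilinearMap.map_sum]
  refine Finset.sum_eq_zero fun g _ => ?_
  have h3 := MultilinearMap.map_smul_univ
    (Matrix.detRowAlternating (n := Fin m) (R := R)).toMultilinearMap (fun r => w r (g r))
    (fun r => v r (g r))
  refine h3.trans ?_
  by_cases hw : ∀ r, w r (g r) ≠ 0
  · have h4 := hcon g hw
    have h5 : (Matrix.detRowAlternating (n := Fin m) (R := R)).toMultilinearMap
        (fun r => v r (g r)) = 0 := by
      have h6 := Matrix.det_transpose (fun i r => v r (g r) i : Matrix (Fin m) (Fin m) R)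
      rw [h4] at h6
      exact h6
    rw [h5, smul_zero]
  · push Not at hw
    obtain ⟨r, hr⟩ := hw
    rw [Finset.prod_eq_zero (Finset.mem_univ r) hr, zero_smul]

/-- **Restriction to a subspace compatible with a set of coordinates.** -/
theorem mix_exists (J : Finset (Fin N)) (hd : 1 ≤ d) {F : MvPolynomial (Fin (n + 2)) ℂ} (hF : F.IsHomogeneous d)
    (hF0 : F ≠ 0) (G : Fin (n + 2) → MvPolynomial (Fin N) ℂ) (hFG : aeval G F = 0)
    (hdom : ∀ e (H : MvPolynomial (Fin (n + 2)) ℂ), H.IsHomogeneous e → aeval G H = 0 → F ∣ H) :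
    ∃ (c : Fin N → ℂ) (A : Fin N → Fin n → ℂ) (g : Fin n → Option (Fin N)),
      (∀ s l, g s = some l → l ∈ J) ∧ (∀ s s' l, g s = some l → g s' = some l → s = s') ∧
      (∀ s l, g s = some l → ∀ l', A l' s = if l' = l then 1 else 0) ∧
      (∀ s, g s = none → ∀ l ∈ J, A l s = 0) ∧
      aeval (fun i => aeval (sub c A) (G i)) F = 0 ∧
      ∀ e (H : MvPolynomial (Fin (n + 2)) ℂ), H.IsHomogeneous e →
        aeval (fun i => aeval (sub c A) (G i)) H = 0 → F ∣ H := by
  classical
  let K := FractionRing (MvPolynomial (Fin N) ℂ)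
  let al : MvPolynomial (Fin N) ℂ →ₐ[ℂ] K := IsScalarTower.toAlgHom ℂ _ K
  have hal : Function.Injective al := IsFractionRing.injective (MvPolynomial (Fin N) ℂ) K
  have hchar : CharZero K := algebraRat.charZero K
  set x : Fin (n + 2) → K := fun i => al (G i) with hx
  have hax : ∀ H : MvPolynomial (Fin (n + 2)) ℂ, aeval x H = al (aeval G H) := by
    intro H
    have : (aeval x : MvPolynomial (Fin (n + 2)) ℂ →ₐ[ℂ] K) = al.comp (aeval G) := by
      apply MvPolynomial.algHom_ext
      intro i
      rw [aeval_X, AlgHom.comp_apply, aeval_X]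
    rw [this, AlgHom.comp_apply]
  have hker : ∀ e (H : MvPolynomial (Fin (n + 2)) ℂ), H.IsHomogeneous e → aeval x H = 0 →
      F ∣ H := by
    intro e H hH h
    refine hdom e H hH (hal ?_)
    rw [← hax, h, map_zero]
  obtain ⟨j, hj0, hju⟩ := exists_indep' hF hd hF0 hker
  set z : Fin (n + 1) → MvPolynomial (Fin N) ℂ := fun i => G (j.succAbove i) with hz
  have hz0 : al (z 0) ≠ 0 := hj0
  obtain ⟨δ, hδ⟩ := exists_dual _ hju
  -- common denominator
  obtain ⟨q, hq⟩ := IsLocalization.exist_integer_multiples_of_finite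
    (nonZeroDivisors (MvPolynomial (Fin N) ℂ)) (fun ls : Fin N × Fin n => δ ls.2 (al (X ls.1)))
  choose ω hω using hq
  have hq0 : al (q : MvPolynomial (Fin N) ℂ) ≠ 0 := by
    intro h
    exact nonZeroDivisors.coe_ne_zero q (hal (by rw [h, map_zero]))
  have hω' : ∀ (l : Fin N) (s : Fin n), al (ω (l, s)) = al q * δ s (al (X l)) := by
    intro l s
    have := hω (l, s)
    rw [Algebra.smul_def] at this
    exact this
  -- the matrix
  let Z : Matrix (Fin (n + 1)) (Fin (n + 1)) (MvPolynomial (Fin N) ℂ) := fun i r =>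
    Fin.cases (z i) (fun s => ∑ l, ω (l, s) * pderiv l (z i)) r
  have hZ0 : ∀ i, Z i 0 = z i := fun i => rfl
  have hZs : ∀ i (s : Fin n), Z i s.succ = ∑ l, ω (l, s) * pderiv l (z i) := fun i s => rfl
  have hZd : ∀ i (s : Fin n), al (Z i s.succ) = al q * δ s (al (z i)) := by
    intro i s
    rw [hZs, map_sum, der_al al (δ s) (z i), Finset.mul_sum]
    refine Finset.sum_congr rfl fun l _ => ?_
    rw [map_mul, hω']
    ring
  have hdetZ : Z.det ≠ 0 := by
    intro hdet
    have h1 : (al.toRingHom.mapMatrix Z).det = 0 := by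
      rw [← RingHom.map_det, hdet, map_zero]
    obtain ⟨v, hv0, hv⟩ := Matrix.exists_vecMul_eq_zero_iff.2 h1
    apply hv0
    have hv' : ∀ r, ∑ i, v i * al (Z i r) = 0 := fun r => congrFun hv r
    have e0 : ∑ i, v i * al (z i) = 0 := hv' 0
    have es : ∀ s : Fin n, ∑ i, v i * δ s (al (z i)) = 0 := by
      intro s
      have h2 := hv' s.succ
      have h3 : ∑ i, v i * al (Z i s.succ) = al q * ∑ i, v i * δ s (al (z i)) := by
        rw [Finset.mul_sum]
        refine Finset.sum_congr rfl fun i _ => ?_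
        rw [hZd]
        ring
      rw [h3] at h2
      rcases mul_eq_zero.1 h2 with h | h
      · exact absurd h hq0
      · exact h
    -- `z i = z 0 * u i`
    let u : Fin (n + 1) → K := fun i => al (z i) / al (z 0)
    have hu : ∀ i, al (z i) = al (z 0) * u i := by
      intro i
      change al (z i) = al (z 0) * (al (z i) / al (z 0))
      rw [mul_comm, div_mul_cancel₀ _ hz0]
    have hu0 : u 0 = 1 := div_self hz0
    have hus : ∀ (s l : Fin n), δ s (u l.succ) = if l = s then 1 else 0 := fun s l => hδ s l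
    have f0 : ∑ i, v i * u i = 0 := by
      have h2 : ∑ i, v i * al (z i) = al (z 0) * ∑ i, v i * u i := by
        rw [Finset.mul_sum]
        refine Finset.sum_congr rfl fun i _ => ?_
        rw [hu i]
        ring
      rw [h2] at e0
      rcases mul_eq_zero.1 e0 with h | h
      · exact absurd h hz0
      · exact h
    have fs : ∀ s : Fin n, ∑ i, v i * δ s (u i) = 0 := by
      intro s
      have h2 : ∑ i, v i * δ s (al (z i)) =
          al (z 0) * ∑ i, v i * δ s (u i) + δ s (al (z 0)) * ∑ i, v i * u i := by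
        rw [Finset.mul_sum, Finset.mul_sum, ← Finset.sum_add_distrib]
        refine Finset.sum_congr rfl fun i _ => ?_
        rw [hu i, Derivation.leibniz, smul_eq_mul, smul_eq_mul]
        ring
      rw [es s, f0, mul_zero, add_zero] at h2
      rcases mul_eq_zero.1 h2.symm with h | h
      · exact absurd h hz0
      · exact h
    have hvs : ∀ s : Fin n, v s.succ = 0 := by
      intro s
      have h2 := fs s
      rw [Fin.sum_univ_succ, hu0, (δ s).map_one_eq_zero, mul_zero, zero_add,
        Finset.sum_eq_single s] at h2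
      · rw [hus, if_pos rfl, mul_one] at h2
        exact h2
      · intro b _ hb
        rw [hus, if_neg hb, mul_zero]
      · intro h
        exact absurd (Finset.mem_univ _) h
    funext i
    refine Fin.cases ?_ (fun s => hvs s) i
    rw [Fin.sum_univ_succ, hu0, mul_one, Finset.sum_eq_zero, add_zero] at f0
    · exact f0
    · intro s _
      rw [hvs, zero_mul]
  -- expansion of the determinant
  let wt : Fin (n + 1) → Option (Fin N) → MvPolynomial (Fin N) ℂ := fun r a =>
    Fin.cases (motive := fun _ => MvPolynomial (Fin N) ℂ)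
      (Option.casesOn (motive := fun _ => MvPolynomial (Fin N) ℂ) a 1 fun _ => 0)
      (fun s => Option.casesOn (motive := fun _ => MvPolynomial (Fin N) ℂ) a 1
        fun l => if l ∈ J then ω (l, s) else 0) r
  let vt : Fin (n + 1) → Option (Fin N) → Fin (n + 1) → MvPolynomial (Fin N) ℂ := fun r a i =>
    Fin.cases (motive := fun _ => MvPolynomial (Fin N) ℂ) (z i)
      (fun s => Option.casesOn (motive := fun _ => MvPolynomial (Fin N) ℂ) a
        (∑ l, if l ∈ J then 0 else ω (l, s) * pderiv l (z i)) fun l => pderiv l (z i)) r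
  obtain ⟨g, hg1, hg2⟩ := det_expand2 wt vt Z (by
      intro i r
      refine Fin.cases ?_ (fun s => ?_) r
      · rw [hZ0, Fintype.sum_option]
        simp [wt, vt]
      · rw [hZs, Fintype.sum_option]
        change _ = 1 * (∑ l, if l ∈ J then 0 else ω (l, s) * pderiv l (z i)) +
          ∑ l, (if l ∈ J then ω (l, s) else 0) * pderiv l (z i)
        rw [one_mul, ← Finset.sum_add_distrib]
        refine Finset.sum_congr rfl fun l _ => ?_
        by_cases hl : l ∈ J
        · rw [if_pos hl, if_pos hl, zero_add]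
        · rw [if_neg hl, if_neg hl, zero_mul, add_zero]) hdetZ
  let f : Fin n → Option (Fin N) := fun s => g s.succ
  have hfJ : ∀ s l, f s = some l → l ∈ J := by
    intro s l hs
    by_contra hl
    have h1 := hg1 s.succ
    change wt s.succ (f s) ≠ 0 at h1
    rw [hs] at h1
    exact h1 (if_neg hl)
  let Z' : Matrix (Fin (n + 1)) (Fin (n + 1)) (MvPolynomial (Fin N) ℂ) := fun i r => vt r (g r) i
  have hZ' : Z'.det ≠ 0 := hg2
  have hZ'0 : ∀ i, Z' i 0 = z i := fun i => rfl
  have hZ'n : ∀ i s, f s = none → Z' i s.succ =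
      ∑ l, if l ∈ J then 0 else ω (l, s) * pderiv l (z i) := by
    intro i s hs
    change vt s.succ (f s) i = _
    rw [hs]
    rfl
  have hZ's : ∀ i s l, f s = some l → Z' i s.succ = pderiv l (z i) := by
    intro i s l hs
    change vt s.succ (f s) i = _
    rw [hs]
    rfl
  obtain ⟨c, hc⟩ : ∃ c : Fin N → ℂ, eval c Z'.det ≠ 0 := by
    by_contra hcon
    push Not at hcon
    exact hZ' (MvPolynomial.funext fun c => by rw [hcon, map_zero])
  obtain ⟨A, hAs, hAn⟩ : ∃ A : Fin N → Fin n → ℂ,
      (∀ s l, f s = some l → ∀ l', A l' s = if l' = l then 1 else 0) ∧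
      (∀ s, f s = none → ∀ l, A l s = if l ∈ J then 0 else eval c (ω (l, s))) := by
    refine ⟨fun l' s => Option.casesOn (motive := fun _ => ℂ) (f s)
      (if l' ∈ J then 0 else eval c (ω (l', s))) fun l => if l' = l then 1 else 0, ?_, ?_⟩
    · intro s l hs l'
      dsimp only
      rw [hs]
    · intro s hs l
      dsimp only
      rw [hs]
  refine ⟨c, A, f, hfJ, ?_, hAs, ?_, ?_, ?_⟩
  · intro s s' l hs hs'
    by_contra hne
    apply hZ'
    refine Matrix.det_zero_of_column_eq (i := s.succ) (j := s'.succ)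
      (fun h => hne (Fin.succ_injective _ h)) fun i => ?_
    rw [hZ's i s l hs, hZ's i s' l hs']
  · intro s hs l hl
    rw [hAn s hs, if_pos hl]
  · have : (aeval (fun i => aeval (sub c A) (G i)) :
        MvPolynomial (Fin (n + 2)) ℂ →ₐ[ℂ] MvPolynomial (Fin n) ℂ) =
        (aeval (sub c A)).comp (aeval G) := by
      apply MvPolynomial.algHom_ext
      intro i
      rw [aeval_X, AlgHom.comp_apply, aeval_X]
    rw [this, AlgHom.comp_apply, hFG, map_zero]
  · intro e H hH hHG
    have hFG' : aeval (fun i => aeval (sub c A) (G i)) F = 0 := by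
      have : (aeval (fun i => aeval (sub c A) (G i)) :
          MvPolynomial (Fin (n + 2)) ℂ →ₐ[ℂ] MvPolynomial (Fin n) ℂ) =
          (aeval (sub c A)).comp (aeval G) := by
        apply MvPolynomial.algHom_ext
        intro i
        rw [aeval_X, AlgHom.comp_apply, aeval_X]
      rw [this, AlgHom.comp_apply, hFG, map_zero]
    have hprime : ∀ (a b : ℕ) (A B : MvPolynomial (Fin (n + 2)) ℂ), A.IsHomogeneous a →
        B.IsHomogeneous b → F ∣ A * B → F ∣ A ∨ F ∣ B := by
      intro a b A B hA hB ⟨E, hE⟩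
      have h1 : aeval G A * aeval G B = 0 := by
        rw [← map_mul, hE, map_mul, hFG, zero_mul]
      rcases mul_eq_zero.1 h1 with h | h
      · exact Or.inl (hdom a A hA h)
      · exact Or.inr (hdom b B hB h)
    set z' : Fin (n + 1) → MvPolynomial (Fin n) ℂ := fun i => aeval (sub c A) (z i) with hz'
    have hdet' : (ZZ z').det ≠ 0 := by
      intro h
      have h1 : eval (0 : Fin n → ℂ) (ZZ z').det = eval c Z'.det := by
        rw [RingHom.map_det, RingHom.map_det]
        congr 1
        ext i r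
        change eval 0 (ZZ z' i r) = eval c (Z' i r)
        refine Fin.cases ?_ (fun s => ?_) r
        · exact eval_sub c A (z i)
        · change eval 0 (pderiv s (aeval (sub c A) (z i))) = eval c (Z' i s.succ)
          rw [chain_rule (pderiv s) (sub c A) (z i), map_sum]
          rcases hfs : f s with _ | l
          · rw [hZ'n i s hfs, map_sum]
            refine Finset.sum_congr rfl fun l _ => ?_
            rw [map_mul, eval_sub, pderiv_sub, eval_C, hAn s hfs]
            by_cases hl : l ∈ J
            · rw [if_pos hl, if_pos hl, map_zero, mul_zero]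
            · rw [if_neg hl, if_neg hl, map_mul, mul_comm]
          · rw [hZ's i s l hfs, Finset.sum_eq_single l]
            · rw [map_mul, eval_sub, pderiv_sub, eval_C, hAs s l hfs, if_pos rfl, mul_one]
            · intro l' _ hl'
              rw [map_mul, eval_sub, pderiv_sub, eval_C, hAs s l hfs, if_neg hl', mul_zero]
            · intro h
              exact absurd (Finset.mem_univ _) h
      rw [h, map_zero] at h1
      exact hc h1.symm
    have hnr := no_relation z' hdet'
    refine dom_of_indep hF hd hF0 hprime (aeval fun i => aeval (sub c A) (G i)) j.succAbove hFG' ?_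
      hH hHG
    intro l B hB hB0
    refine hnr l B hB ?_
    rw [aeval_rename] at hB0
    exact hB0

/-- weighted degree at most `q` -/
def Wt {M : ℕ} (w : Fin M → ℕ) (q : ℕ) (g : MvPolynomial (Fin M) ℂ) : Prop :=
  ∀ α ∈ g.support, ∑ l, w l * α l ≤ q

theorem Wt.add {M : ℕ} {w : Fin M → ℕ} {q : ℕ} {f g : MvPolynomial (Fin M) ℂ}
    (hf : Wt w q f) (hg : Wt w q g) : Wt w q (f + g) := by
  classical
  intro α hα
  rcases Finset.mem_union.1 (MvPolynomial.support_add hα) with h | h
  · exact hf α h
  · exact hg α h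

theorem Wt.sum {M : ℕ} {ι : Type} (s : Finset ι) {w : Fin M → ℕ} {q : ℕ}
    {f : ι → MvPolynomial (Fin M) ℂ} (hf : ∀ i ∈ s, Wt w q (f i)) : Wt w q (∑ i ∈ s, f i) := by
  classical
  intro α hα
  obtain ⟨i, hi, h⟩ := Finset.mem_biUnion.1 (MvPolynomial.support_sum hα)
  exact hf i hi α h

theorem Wt.mul {M : ℕ} {w : Fin M → ℕ} {q q' : ℕ} {f g : MvPolynomial (Fin M) ℂ}
    (hf : Wt w q f) (hg : Wt w q' g) : Wt w (q + q') (f * g) := by
  classical
  intro α hα
  obtain ⟨β, hβ, γ, hγ, rfl⟩ := Finset.mem_add.1 (MvPolynomial.support_mul f g hα)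
  have h1 := hf β hβ
  have h2 := hg γ hγ
  simp only [Finsupp.add_apply, mul_add, Finset.sum_add_distrib]
  omega

theorem Wt.C {M : ℕ} (w : Fin M → ℕ) (q : ℕ) (a : ℂ) :
    Wt w q (MvPolynomial.C a : MvPolynomial (Fin M) ℂ) := by
  intro α hα
  have h1 : α = 0 := by
    have := support_monomial_subset hα
    rwa [Finset.mem_singleton] at this
  subst h1
  simp

theorem Wt.X {M : ℕ} (w : Fin M → ℕ) (s : Fin M) :
    Wt w (w s) (MvPolynomial.X s : MvPolynomial (Fin M) ℂ) := by
  intro α hα
  have h1 : α = Finsupp.single s 1 := by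
    have := support_monomial_subset hα
    rwa [Finset.mem_singleton] at this
  subst h1
  rw [Finset.sum_eq_single s]
  · simp
  · intro l _ hl
    rw [Finsupp.single_eq_of_ne hl, mul_zero]
  · intro h
    exact absurd (Finset.mem_univ _) h

theorem Wt.pow {M : ℕ} {w : Fin M → ℕ} {q : ℕ} {f : MvPolynomial (Fin M) ℂ}
    (hf : Wt w q f) (m : ℕ) : Wt w (m * q) (f ^ m) := by
  induction m with
  | zero =>
    rw [pow_zero, ← C_1]
    exact Wt.C _ _ _
  | succ m ih =>
    rw [pow_succ, Nat.succ_mul]
    exact ih.mul hf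

theorem Wt.prod {M : ℕ} {ι : Type} (s : Finset ι) {w : Fin M → ℕ} {q : ι → ℕ}
    {f : ι → MvPolynomial (Fin M) ℂ} (hf : ∀ i ∈ s, Wt w (q i) (f i)) :
    Wt w (∑ i ∈ s, q i) (∏ i ∈ s, f i) := by
  classical
  induction s using Finset.induction_on with
  | empty =>
    rw [Finset.prod_empty, Finset.sum_empty, ← C_1]
    exact Wt.C _ _ _
  | insert i s hi ih =>
    rw [Finset.prod_insert hi, Finset.sum_insert hi]
    exact (hf i (Finset.mem_insert_self _ _)).mul
      (ih fun j hj => hf j (Finset.mem_insert_of_mem hj))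

theorem Wt.mono {M : ℕ} {w : Fin M → ℕ} {q q' : ℕ} {f : MvPolynomial (Fin M) ℂ}
    (hf : Wt w q f) (h : q ≤ q') : Wt w q' f := fun α hα => (hf α hα).trans h

/-- weighted degrees of a restriction -/
theorem sub_wt (c : Fin N → ℂ) (A : Fin N → Fin n → ℂ) (w : Fin N → ℕ) (w' : Fin n → ℕ)
    (h : ∀ l s, A l s ≠ 0 → w' s ≤ w l) {q : ℕ} {g : MvPolynomial (Fin N) ℂ} (hg : Wt w q g) :
    Wt w' q (aeval (sub c A) g) := by
  classical
  rw [g.as_sum, map_sum]
  refine Wt.sum _ fun α hα => ?_
  rw [aeval_monomial, algebraMap_eq, Finsupp.prod_fintype _ _ (fun _ => pow_zero _)]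
  have h1 : ∀ l, Wt w' (w l) (sub c A l) := by
    intro l
    unfold sub
    refine (Wt.C _ _ _).add (Wt.sum _ fun s _ => ?_)
    by_cases hA : A l s = 0
    · rw [hA, C_0, zero_mul, ← C_0]
      exact Wt.C _ _ _
    · have h2 := (Wt.C w' 0 (A l s)).mul (Wt.X w' s)
      rw [zero_add] at h2
      exact h2.mono (h l s hA)
  have h2 : Wt w' (0 + ∑ l, α l * w l) (C (coeff α g) * ∏ l, sub c A l ^ α l) :=
    (Wt.C _ 0 _).mul (Wt.prod _ fun l _ => (h1 l).pow _)
  refine h2.mono ?_
  rw [zero_add]
  have h3 := hg α hα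
  calc ∑ l, α l * w l = ∑ l, w l * α l := Finset.sum_congr rfl fun l _ => mul_comm _ _
    _ ≤ q := h3

/-- the degrees of a restriction -/
theorem mix_deg {k : ℕ} {J : Finset (Fin N)} (c : Fin N → ℂ) (A : Fin N → Fin n → ℂ)
    (g : Fin n → Option (Fin N)) (h1 : ∀ s l, g s = some l → l ∈ J)
    (h3 : ∀ s l, g s = some l → ∀ l', A l' s = if l' = l then 1 else 0)
    (h4 : ∀ s, g s = none → ∀ l ∈ J, A l s = 0) {p : MvPolynomial (Fin N) ℂ}
    (hp : ∀ α ∈ p.support, (∀ l ∈ J, α l ≤ 1) ∧ ∑ l ∈ Jᶜ, α l ≤ k) :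
    Sg (Finset.univ.filter fun s => g s = none) k (aeval (sub c A) p) := by
  classical
  intro β hβ
  constructor
  · intro s hs
    rw [Finset.mem_filter, not_and] at hs
    obtain ⟨l, hl⟩ := Option.ne_none_iff_exists'.1 (hs (Finset.mem_univ s))
    have h5 : Wt (fun l' : Fin N => if l' = l then 1 else 0) 1 p := by
      intro α hα
      rw [Finset.sum_congr rfl fun l' _ => (ite_mul (l' = l) 1 0 (α l'))]
      simp only [one_mul, zero_mul]
      rw [Finset.sum_ite_eq' Finset.univ l fun l' => α l', if_pos (Finset.mem_univ _)]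
      exact (hp α hα).1 l (h1 s l hl)
    have h6 := sub_wt c A _ (fun s' : Fin n => if s' = s then 1 else 0) (by
      intro l' s' hA
      by_cases hs' : s' = s
      · subst hs'
        rw [h3 s' l hl] at hA
        by_cases hl' : l' = l
        · rw [if_pos rfl, if_pos hl']
        · rw [if_neg hl'] at hA
          exact absurd rfl hA
      · rw [if_neg hs']
        exact Nat.zero_le _) h5 β hβ
    rw [Finset.sum_congr rfl fun l' _ => (ite_mul (l' = s) 1 0 (β l'))] at h6
    simp only [one_mul, zero_mul] at h6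
    rw [Finset.sum_ite_eq' Finset.univ s fun l' => β l', if_pos (Finset.mem_univ _)] at h6
    exact h6
  · have h5 : Wt (fun l' : Fin N => if l' ∈ Jᶜ then 1 else 0) k p := by
      intro α hα
      rw [Finset.sum_congr rfl fun l' _ => (ite_mul (l' ∈ Jᶜ) 1 0 (α l'))]
      simp only [one_mul, zero_mul]
      rw [← Finset.sum_filter, Finset.filter_mem_eq_inter, Finset.univ_inter]
      exact (hp α hα).2
    have h6 := sub_wt c A _ (fun s' : Fin n => if g s' = none then 1 else 0) (by
      intro l' s' hA
      by_cases hs' : g s' = none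
      · have hl' : l' ∉ J := fun h => hA (h4 s' hs' l' h)
        rw [if_pos hs', if_pos (Finset.mem_compl.2 hl')]
      · rw [if_neg hs']
        exact Nat.zero_le _) h5 β hβ
    rw [Finset.sum_congr rfl fun l' _ => (ite_mul (g l' = none) 1 0 (β l'))] at h6
    simp only [one_mul, zero_mul] at h6
    rw [← Finset.sum_filter] at h6
    exact h6

end

end Pool.Agent.TH920.MC
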